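import Pool.Agent.H474.MS.Stm3

/-!
# Project MS (helper474), task K2 (helper276): characteristic function of a trigonometric sum
-/

set_option autoImplicit false

open MeasureTheory Filter Topology Set

namespace Pool.Agent.H276.MS.K2

open Pool.Agent.H474.MS

/-- the integral of the sine vanishes -/
theorem sin_zero (s : ℝ) : ∫ y in (0 : ℝ)..(2 * Real.pi), Real.sin (s * Real.cos y) = 0 := by
  have hper : Function.Periodic (fun y : ℝ => Real.sin (s * Real.cos y)) (2 * Real.pi) := by
    intro y
    show Real.sin (s * Real.cos (y + 2 * Real.pi)) = Real.sin (s * Real.cos y)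
    rw [Real.cos_add_two_pi]
  have h1 := hper.intervalIntegral_add_eq 0 Real.pi
  rw [zero_add] at h1
  have h2 : ∫ y in (0 : ℝ)..(2 * Real.pi), Real.sin (s * Real.cos (y + Real.pi)) =
      ∫ y in Real.pi..(Real.pi + 2 * Real.pi), Real.sin (s * Real.cos y) := by
    rw [intervalIntegral.integral_comp_add_right (fun y => Real.sin (s * Real.cos y)) Real.pi,
      zero_add, add_comm (2 * Real.pi) Real.pi]
  have h3 : ∫ y in (0 : ℝ)..(2 * Real.pi), Real.sin (s * Real.cos (y + Real.pi)) =
      -∫ y in (0 : ℝ)..(2 * Real.pi), Real.sin (s * Real.cos y) := by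
    rw [← intervalIntegral.integral_neg]
    refine intervalIntegral.integral_congr fun y _ => ?_
    show Real.sin (s * Real.cos (y + Real.pi)) = -Real.sin (s * Real.cos y)
    rw [Real.cos_add_pi, mul_neg, Real.sin_neg]
  linarith

/-- the one-dimensional integral -/
theorem one (s θ : ℝ) : ∫ y in Ioc (0 : ℝ) (2 * Real.pi),
    Complex.exp (((s * Real.cos (y + θ) : ℝ) : ℂ) * Complex.I) = ((2 * Real.pi * J0 s : ℝ) : ℂ) := by
  have hpi : (0 : ℝ) < 2 * Real.pi := by positivity
  rw [← intervalIntegral.integral_of_le hpi.le]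
  have hper : Function.Periodic
      (fun y : ℝ => Complex.exp (((s * Real.cos y : ℝ) : ℂ) * Complex.I)) (2 * Real.pi) := by
    intro y
    show Complex.exp (((s * Real.cos (y + 2 * Real.pi) : ℝ) : ℂ) * Complex.I) =
      Complex.exp (((s * Real.cos y : ℝ) : ℂ) * Complex.I)
    rw [Real.cos_add_two_pi]
  rw [intervalIntegral.integral_comp_add_right
    (fun y => Complex.exp (((s * Real.cos y : ℝ) : ℂ) * Complex.I)) θ, zero_add,
    add_comm (2 * Real.pi) θ]
  have h1 := hper.intervalIntegral_add_eq θ 0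
  rw [zero_add] at h1
  rw [h1]
  have h2 : ∀ y : ℝ, Complex.exp (((s * Real.cos y : ℝ) : ℂ) * Complex.I) =
      ((Real.cos (s * Real.cos y) : ℝ) : ℂ) +
        ((Real.sin (s * Real.cos y) : ℝ) : ℂ) * Complex.I := by
    intro y
    rw [Complex.exp_mul_I, ← Complex.ofReal_cos, ← Complex.ofReal_sin]
  simp only [h2]
  have c1 : Continuous fun y : ℝ => ((Real.cos (s * Real.cos y) : ℝ) : ℂ) := by fun_prop
  have c2 : Continuous fun y : ℝ => ((Real.sin (s * Real.cos y) : ℝ) : ℂ) * Complex.I := by
    fun_prop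
  rw [intervalIntegral.integral_add (c1.intervalIntegrable _ _) (c2.intervalIntegrable _ _),
    intervalIntegral.integral_mul_const, intervalIntegral.integral_ofReal,
    intervalIntegral.integral_ofReal, sin_zero, Complex.ofReal_zero, zero_mul, add_zero]
  congr 1
  unfold J0
  field_simp

theorem t_K2 (k1 : Pool.Agent.H474.MS.S_K1) : Pool.Agent.H474.MS.S_K2 := by
  intro n γ a θ hγ t
  obtain ⟨E, hE⟩ : ∃ E : (Fin n → ℝ) → ℂ, E = fun x =>
      ∏ i, Complex.exp (((2 * a i * t * Real.cos (x i + θ i) : ℝ) : ℂ) * Complex.I) := ⟨_, rfl⟩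
  have hE2 : ∀ x, E x = Complex.exp (((t * ∑ i, 2 * a i * Real.cos (x i + θ i) : ℝ) : ℂ) *
      Complex.I) := by
    intro x
    rw [hE]
    show ∏ i, Complex.exp (((2 * a i * t * Real.cos (x i + θ i) : ℝ) : ℂ) * Complex.I) = _
    rw [← Complex.exp_sum]
    congr 1
    rw [← Finset.sum_mul, ← Complex.ofReal_sum, Finset.mul_sum]
    congr 2
    refine Finset.sum_congr rfl fun i _ => ?_
    ring
  have hEc : Continuous E := by
    rw [hE]
    fun_prop
  obtain ⟨S, hS⟩ : ∃ S : Set (Fin n → ℝ), S = Set.pi Set.univ (fun _ : Fin n =>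
      Ioc (0 : ℝ) (2 * Real.pi)) := ⟨_, rfl⟩
  have hSsub : S ⊆ Icc (fun _ => (0 : ℝ)) (fun _ => 2 * Real.pi) := by
    rw [hS, ← Set.pi_univ_Icc]
    exact Set.pi_mono fun _ _ => Ioc_subset_Icc_self
  have hEi : IntegrableOn E S := (hEc.integrableOn_Icc).mono_set hSsub
  have hint : ∫ x in S, E x = (((2 * Real.pi) ^ n * ∏ i, J0 (2 * a i * t) : ℝ) : ℂ) := by
    rw [hS, hE, volume_pi, Measure.restrict_pi_pi,
      integral_fintype_prod_eq_prod (fun i (y : ℝ) =>
        Complex.exp (((2 * a i * t * Real.cos (y + θ i) : ℝ) : ℂ) * Complex.I))]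
    rw [Finset.prod_congr rfl fun i _ => one (2 * a i * t) (θ i), ← Complex.ofReal_prod,
      Finset.prod_mul_distrib, Finset.prod_const, Finset.card_univ, Fintype.card_fin]
  have hpin : (2 * Real.pi) ^ n ≠ 0 := by positivity
  have hre : ∫ x in S, Real.cos (t * ∑ i, 2 * a i * Real.cos (x i + θ i)) =
      (2 * Real.pi) ^ n * ∏ i, J0 (2 * a i * t) := by
    have h1 := Complex.reCLM.integral_comp_comm hEi
    rw [hint] at h1
    refine Eq.trans ?_ h1
    refine integral_congr_ae (Filter.Eventually.of_forall fun x => ?_)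
    show Real.cos (t * ∑ i, 2 * a i * Real.cos (x i + θ i)) = (E x).re
    rw [hE2, Complex.exp_ofReal_mul_I_re]
  have him : ∫ x in S, Real.sin (t * ∑ i, 2 * a i * Real.cos (x i + θ i)) = 0 := by
    have h1 := Complex.imCLM.integral_comp_comm hEi
    rw [hint] at h1
    refine Eq.trans ?_ h1
    refine integral_congr_ae (Filter.Eventually.of_forall fun x => ?_)
    show Real.sin (t * ∑ i, 2 * a i * Real.cos (x i + θ i)) = (E x).im
    rw [hE2, Complex.exp_ofReal_mul_I_im]
  have hper : ∀ (x : Fin n → ℝ) (i : Fin n),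
      ∑ j, 2 * a j * Real.cos (Function.update x i (x i + 2 * Real.pi) j + θ j) =
        ∑ j, 2 * a j * Real.cos (x j + θ j) := by
    intro x i
    refine Finset.sum_congr rfl fun j _ => ?_
    by_cases h : j = i
    · subst h
      rw [Function.update_self, add_right_comm, Real.cos_add_two_pi]
    · rw [Function.update_of_ne h]
  constructor
  · have h := k1 n γ hγ (fun x => Real.cos (t * ∑ i, 2 * a i * Real.cos (x i + θ i)))
      (by fun_prop) (fun x i => by
        show Real.cos (t * ∑ j, 2 * a j * Real.cos (Function.update x i (x i + 2 * Real.pi) j + θ j)) =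
          Real.cos (t * ∑ j, 2 * a j * Real.cos (x j + θ j))
        rw [hper])
    rw [← hS, hre, mul_div_cancel_left₀ _ hpin] at h
    exact h
  · have h := k1 n γ hγ (fun x => Real.sin (t * ∑ i, 2 * a i * Real.cos (x i + θ i)))
      (by fun_prop) (fun x i => by
        show Real.sin (t * ∑ j, 2 * a j * Real.cos (Function.update x i (x i + 2 * Real.pi) j + θ j)) =
          Real.sin (t * ∑ j, 2 * a j * Real.cos (x j + θ j))
        rw [hper])
    rw [← hS, him, zero_div] at h
    exact h

end Pool.Agent.H276.MS.K2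

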